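import Mathlib

/-!
Every binary quadratic form of discriminant `-19` is equivalent to `x² + xy + 5y²`; hence
`4p = x² + 19y²` is solvable if `-19` is a square modulo `p`.
-/

set_option autoImplicit false

namespace Pool.Agent.H.MP_7425ae_nt.Rep

/-- A form `(a, b, c)` of discriminant `-19`, positive, comes from `x² + xy + 5y²` by a substitution
(stated for the coefficients only). -/
def Ok (a b c : ℤ) : Prop :=
  ∃ X Y U V : ℤ, a = X ^ 2 + X * Y + 5 * Y ^ 2 ∧ c = U ^ 2 + U * V + 5 * V ^ 2 ∧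
    b = 2 * X * U + X * V + Y * U + 10 * Y * V

theorem ok_shift {a b c : ℤ} (k : ℤ) (h : Ok a (b + 2 * a * k) (c + b * k + a * k ^ 2)) :
    Ok a b c := by
  obtain ⟨X, Y, U, V, h1, h2, h3⟩ := h
  refine ⟨X, Y, U - k * X, V - k * Y, h1, ?_, ?_⟩
  · have : c = (U ^ 2 + U * V + 5 * V ^ 2) - b * k - a * k ^ 2 := by linarith
    have hb : b = 2 * X * U + X * V + Y * U + 10 * Y * V - 2 * a * k := by linarith
    rw [this, hb, h1]
    ring
  · have hb : b = 2 * X * U + X * V + Y * U + 10 * Y * V - 2 * a * k := by linarith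
    rw [hb, h1]
    ring

theorem ok_swap {a b c : ℤ} (h : Ok c b a) : Ok a b c := by
  obtain ⟨X, Y, U, V, h1, h2, h3⟩ := h
  exact ⟨U, V, X, Y, h2, h1, by rw [h3]; ring⟩

theorem ok_all (n : ℕ) : ∀ a b c : ℤ, 0 < a → a ≤ n → 4 * a * c = b ^ 2 + 19 → Ok a b c := by
  induction n using Nat.strong_induction_on with
  | _ n ih =>
    intro a b c ha han h
    -- reduce `b`
    obtain ⟨k, b', hb', hlo, hhi⟩ : ∃ k b' : ℤ, b' = b + 2 * a * k ∧ -a ≤ b' ∧ b' ≤ a := by
      refine ⟨-((b + a) / (2 * a)), b + 2 * a * -((b + a) / (2 * a)), rfl, ?_, ?_⟩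
      · have h1 := Int.emod_add_mul_ediv (b + a) (2 * a)
        have h2 := Int.emod_nonneg (b + a) (b := 2 * a) (by omega)
        nlinarith
      · have h1 := Int.emod_add_mul_ediv (b + a) (2 * a)
        have h2 := Int.emod_lt_of_pos (b + a) (b := 2 * a) (by omega)
        nlinarith
    apply ok_shift k
    rw [← hb']
    obtain ⟨c', hc'⟩ : ∃ c' : ℤ, c' = c + b * k + a * k ^ 2 := ⟨_, rfl⟩
    rw [← hc']
    have h' : 4 * a * c' = b' ^ 2 + 19 := by
      rw [hc', hb']
      linear_combination h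
    have hc0 : 0 < c' := by
      by_contra hneg
      have : c' ≤ 0 := not_lt.1 hneg
      nlinarith [sq_nonneg b']
    by_cases hac : a ≤ c'
    · -- the reduced form
      have hb2 : b' ^ 2 ≤ a ^ 2 := by nlinarith
      have ha2 : a ≤ 2 := by
        by_contra h3
        have h3' : 3 ≤ a := by omega
        nlinarith
      have hcase : a = 1 ∨ a = 2 := by omega
      rcases hcase with e | e
      · subst e
        have hbc : b' = -1 ∨ b' = 0 ∨ b' = 1 := by omega
        rcases hbc with e | e | e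
        · subst e
          have : c' = 5 := by linarith
          subst this
          exact ⟨1, 0, -1, 1, by norm_num, by norm_num, by norm_num⟩
        · subst e
          omega
        · subst e
          have : c' = 5 := by linarith
          subst this
          exact ⟨1, 0, 0, 1, by norm_num, by norm_num, by norm_num⟩
      · subst e
        exfalso
        have hbc : b' = -2 ∨ b' = -1 ∨ b' = 0 ∨ b' = 1 ∨ b' = 2 := by omega
        rcases hbc with e | e | e | e | e <;> subst e <;> omega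
    · apply ok_swap
      have hlt : c' < a := not_le.1 hac
      have hn : c'.toNat < n := by omega
      exact ih c'.toNat hn c' b' a hc0 (by omega) (by linarith)

/-- If `-19` is a square modulo the odd number `p`, then `4p = x² + 19y²` for some `x, y`. -/
theorem exists_rep (p : ℕ) (hp : 0 < p) (hodd : p % 2 = 1) (u : ℤ) (hu : (p : ℤ) ∣ u ^ 2 + 19) :
    ∃ x y : ℤ, 4 * (p : ℤ) = x ^ 2 + 19 * y ^ 2 := by
  -- make `u` odd
  obtain ⟨v, hv, hvo⟩ : ∃ v : ℤ, (p : ℤ) ∣ v ^ 2 + 19 ∧ v % 2 = 1 := by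
    rcases Int.emod_two_eq_zero_or_one u with h | h
    · refine ⟨u + p, ?_, ?_⟩
      · have : (u + p) ^ 2 + 19 = (u ^ 2 + 19) + p * (2 * u + p) := by ring
        rw [this]
        exact dvd_add hu (dvd_mul_right _ _)
      · omega
    · exact ⟨u, hu, h⟩
  obtain ⟨w, hw⟩ := hv
  have h4 : (4 : ℤ) ∣ w := by
    obtain ⟨t, ht⟩ : ∃ t, v = 2 * t + 1 := ⟨v / 2, by omega⟩
    have h1 : (4 : ℤ) ∣ p * w := by
      rw [← hw, ht]
      exact ⟨t ^ 2 + t + 5, by ring⟩
    have hcop : IsCoprime (4 : ℤ) p := by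
      have : Nat.Coprime 4 p := by
        have : Nat.Coprime 2 p := Nat.coprime_two_left.2 (Nat.odd_iff.2 hodd)
        exact Nat.Coprime.pow_left 2 this
      exact_mod_cast Nat.isCoprime_iff_coprime.2 this
    exact hcop.dvd_of_dvd_mul_left h1
  obtain ⟨c, hc⟩ := h4
  have hok := ok_all p p v c (by exact_mod_cast hp) le_rfl (by rw [hw, hc]; ring)
  obtain ⟨X, Y, _, _, h1, _, _⟩ := hok
  exact ⟨2 * X + Y, Y, by rw [h1]; ring⟩

end Pool.Agent.H.MP_7425ae_nt.Rep
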